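import Pool.Agent.W438.RA.Defs2

set_option autoImplicit false

/-!
Hyperbolic volume in upper half-space coordinates (helper308).
-/

open MeasureTheory Set Filter Topology
open scoped ENNReal

namespace Pool.Agent.W308.RA

open Pool.Agent.W575.Hyp6 (B H6 hypVol pt)
open Pool.Agent.W438.RA

lemma measurable_pt : Measurable pt := by
  apply Measurable.subtype_mk
  refine measurable_pi_iff.2 fun i => ?_
  fin_cases i
  · show Measurable fun y : Fin 6 → ℝ => Real.sqrt (1 + ∑ i, y i ^ 2)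
    fun_prop
  · exact measurable_pi_apply 0
  · exact measurable_pi_apply 1
  · exact measurable_pi_apply 2
  · exact measurable_pi_apply 3
  · exact measurable_pi_apply 4
  · exact measurable_pi_apply 5

lemma measurable_cons {α : Type*} [MeasurableSpace α] {f : α → ℝ} {g : α → Fin 5 → ℝ}
    (hf : Measurable f) (hg : Measurable g) :
    Measurable fun a => (Fin.cons (f a) (g a) : Fin 6 → ℝ) := by
  refine measurable_pi_iff.2 fun i => ?_
  refine Fin.cases ?_ (fun j => ?_) i
  · simpa using hf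
  · simpa using measurable_pi_iff.1 hg j

/-- the first coordinate as a function of the height -/
noncomputable def phi (c t : ℝ) : ℝ := (c * t - 1 / t) / 2

lemma phi_deriv (c : ℝ) {t : ℝ} (ht : 0 < t) : HasDerivAt (phi c) ((c + 1 / t ^ 2) / 2) t := by
  have h1 : HasDerivAt (fun t : ℝ => c * t) c t := by
    simpa using (hasDerivAt_id t).const_mul c
  have h2 : HasDerivAt (fun t : ℝ => 1 / t) (-(1 / t ^ 2)) t := by
    have := hasDerivAt_inv ht.ne'
    simp only [one_div]
    exact this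
  have h3 := (h1.sub h2).div_const 2
  rw [sub_neg_eq_add] at h3
  exact h3

lemma phi_inj {c : ℝ} (hc : 0 < c) : InjOn (phi c) (Ioi 0) := by
  intro s hs t ht h
  have hs' : (0:ℝ) < s := hs
  have ht' : (0:ℝ) < t := ht
  unfold phi at h
  have h1 : (s - t) * (c + 1 / (s * t)) = 0 := by
    field_simp
    field_simp at h
    linarith
  have h2 : c + 1 / (s * t) ≠ 0 := by positivity
  rcases mul_eq_zero.1 h1 with h3 | h3
  · linarith
  · exact absurd h3 h2

lemma phi_image {c : ℝ} (hc : 0 < c) : phi c '' Ioi 0 = univ := by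
  refine eq_univ_of_forall fun s => ?_
  have h0 : 0 ≤ s ^ 2 + c := by positivity
  have h1 := Real.sq_sqrt h0
  have h2 : |s| < Real.sqrt (s ^ 2 + c) := by
    rw [← Real.sqrt_sq_eq_abs]
    exact Real.sqrt_lt_sqrt (sq_nonneg s) (by linarith)
  have h3 : 0 < s + Real.sqrt (s ^ 2 + c) := by
    have := neg_abs_le s
    linarith
  set r := Real.sqrt (s ^ 2 + c) with hr
  refine ⟨(s + r) / c, div_pos h3 hc, ?_⟩
  unfold phi
  have h4 : 1 / ((s + r) / c) = r - s := by
    rw [one_div_div, div_eq_iff h3.ne']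
    nlinarith
  rw [h4]
  field_simp
  ring

lemma sqrt_phi {c t : ℝ} (hc : 0 < c) (ht : 0 < t) :
    Real.sqrt (phi c t ^ 2 + c) = (c * t + 1 / t) / 2 := by
  rw [Real.sqrt_eq_iff_mul_self_eq (by positivity) (by positivity)]
  unfold phi
  field_simp
  ring

/-- the substitution in the first coordinate -/
lemma sub1 {c : ℝ} (hc : 0 < c) (g : ℝ → ℝ≥0∞) :
    ∫⁻ s : ℝ, g s * ENNReal.ofReal (1 / Real.sqrt (s ^ 2 + c)) =
      ∫⁻ t in Ioi (0:ℝ), g (phi c t) * ENNReal.ofReal (1 / t) := by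
  have h := lintegral_image_eq_lintegral_abs_deriv_mul (s := Ioi (0:ℝ)) (f := phi c)
    (f' := fun t => (c + 1 / t ^ 2) / 2) measurableSet_Ioi
    (fun t ht => (phi_deriv c ht).hasDerivWithinAt) (phi_inj hc)
    (fun s => g s * ENNReal.ofReal (1 / Real.sqrt (s ^ 2 + c)))
  rw [phi_image hc, setLIntegral_univ] at h
  rw [h]
  refine setLIntegral_congr_fun measurableSet_Ioi fun t ht => ?_
  have ht' : (0:ℝ) < t := ht
  rw [sqrt_phi hc ht', mul_left_comm, ← ENNReal.ofReal_mul (abs_nonneg _)]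
  congr 2
  rw [abs_of_pos (by positivity)]
  have : 0 < c * t + 1 / t := by positivity
  field_simp

/-- scaling -/
lemma sub2 {t : ℝ} (ht : 0 < t) (g : (Fin 5 → ℝ) → ℝ≥0∞) (hg : Measurable g) :
    ∫⁻ x, g x = ENNReal.ofReal (t ^ 5) * ∫⁻ u, g (t • u) := by
  have h1 := Measure.map_addHaar_smul (volume : Measure (Fin 5 → ℝ)) ht.ne'
  have h2 : ∫⁻ u, g (t • u) = ∫⁻ x, g x ∂(Measure.map (fun u : Fin 5 → ℝ => t • u) volume) :=
    (lintegral_map hg (measurable_const_smul t)).symm
  have h3 : Measure.map (fun u : Fin 5 → ℝ => t • u) volume =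
      ENNReal.ofReal (|(t ^ 5)⁻¹|) • (volume : Measure (Fin 5 → ℝ)) := by
    have h4 : Module.finrank ℝ (Fin 5 → ℝ) = 5 := by simp
    rw [h4] at h1
    exact h1
  rw [h2, h3, lintegral_smul_measure, smul_eq_mul, ← mul_assoc,
    ← ENNReal.ofReal_mul (by positivity), abs_of_pos (by positivity),
    mul_inv_cancel₀ (by positivity), ENNReal.ofReal_one, one_mul]

lemma measurable_upH : Measurable (fun z : (Fin 5 → ℝ) × ℝ => upH z.1 z.2) := by
  unfold upH
  refine measurable_pt.comp (measurable_cons ?_ ?_)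
  · fun_prop
  · refine measurable_pi_iff.2 fun k => ?_
    fun_prop

lemma upH_smul (u : Fin 5 → ℝ) {t : ℝ} (ht : 0 < t) :
    upH (t • u) t = pt (Fin.cons (phi (1 + ∑ k, u k ^ 2) t) u) := by
  unfold upH
  congr 1
  congr 1
  · unfold phi
    have h1 : ∑ k, (t • u) k ^ 2 = t ^ 2 * ∑ k, u k ^ 2 := by
      rw [Finset.mul_sum]
      refine Finset.sum_congr rfl fun k _ => ?_
      simp only [Pi.smul_apply, smul_eq_mul]
      ring
    rw [h1]
    field_simp
    ring
  · funext k
    simp only [Pi.smul_apply, smul_eq_mul]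
    field_simp

attribute [local irreducible] upH pt

theorem gen (χ : H6 → ℝ≥0∞) (hχ : Measurable χ) :
    ∫⁻ y : Fin 6 → ℝ, χ (pt y) * ENNReal.ofReal (1 / Real.sqrt (1 + ∑ j, y j ^ 2)) =
      ∫⁻ x : Fin 5 → ℝ, ∫⁻ t in Ioi (0:ℝ), χ (upH x t) * ENNReal.ofReal (1 / t ^ 6) := by
  set F : (Fin 6 → ℝ) → ℝ≥0∞ := fun y => χ (pt y) *
    ENNReal.ofReal (1 / Real.sqrt (1 + ∑ j, y j ^ 2)) with hF
  have hFm : Measurable F := (hχ.comp measurable_pt).mul (by fun_prop)
  have e1 : ∫⁻ y, F y = ∫⁻ z : ℝ × (Fin 5 → ℝ), F (Fin.cons z.1 z.2) := by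
    have hmp := (volume_preserving_piFinSuccAbove (fun _ : Fin 6 => ℝ) 0).symm
    rw [← hmp.lintegral_comp_emb (MeasurableEquiv.measurableEmbedding _)]
    refine lintegral_congr fun z => ?_
    congr 1
    simp only [MeasurableEquiv.piFinSuccAbove_symm_apply, Fin.insertNthEquiv, Equiv.coe_fn_mk,
      Fin.insertNth_zero']
  have hFc : Measurable fun z : ℝ × (Fin 5 → ℝ) => F (Fin.cons z.1 z.2) :=
    hFm.comp (measurable_cons measurable_fst measurable_snd)
  have e2 : ∫⁻ z : ℝ × (Fin 5 → ℝ), F (Fin.cons z.1 z.2) =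
      ∫⁻ u : Fin 5 → ℝ, ∫⁻ s : ℝ, F (Fin.cons s u) := lintegral_prod_symm' _ hFc
  have e3 : ∀ u : Fin 5 → ℝ, ∫⁻ s : ℝ, F (Fin.cons s u) =
      ∫⁻ t in Ioi (0:ℝ), χ (upH (t • u) t) * ENNReal.ofReal (1 / t) := by
    intro u
    have hc : 0 < 1 + ∑ k, u k ^ 2 := by positivity
    have h1 := sub1 hc (fun s => χ (pt (Fin.cons s u)))
    have h2 : ∀ s : ℝ, F (Fin.cons s u) = χ (pt (Fin.cons s u)) *
        ENNReal.ofReal (1 / Real.sqrt (s ^ 2 + (1 + ∑ k, u k ^ 2))) := by
      intro s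
      simp only [hF]
      congr 4
      rw [Fin.sum_univ_succ]
      simp only [Fin.cons_zero, Fin.cons_succ]
      ring
    simp_rw [h2]
    rw [h1]
    refine setLIntegral_congr_fun measurableSet_Ioi fun t ht => ?_
    rw [upH_smul u ht]
  have hm0 : Measurable fun z : (Fin 5 → ℝ) × ℝ => χ (upH z.1 z.2) := hχ.comp measurable_upH
  have hG : Measurable fun z : (Fin 5 → ℝ) × ℝ => χ (upH z.1 z.2) * ENNReal.ofReal (1 / z.2 ^ 6) :=
    hm0.mul (by fun_prop)
  have hG2 : Measurable fun z : (Fin 5 → ℝ) × ℝ =>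
      χ (upH (z.2 • z.1) z.2) * ENNReal.ofReal (1 / z.2) := by
    refine Measurable.mul ?_ (by fun_prop)
    have h6 : Measurable fun z : (Fin 5 → ℝ) × ℝ => z.2 • z.1 := by
      refine measurable_pi_iff.2 fun k => ?_
      simp only [Pi.smul_apply, smul_eq_mul]
      fun_prop
    exact hm0.comp (h6.prodMk measurable_snd)
  rw [e1, e2]
  simp_rw [e3]
  rw [lintegral_lintegral_swap (f := fun (u : Fin 5 → ℝ) (t : ℝ) =>
    χ (upH (t • u) t) * ENNReal.ofReal (1 / t)) hG2.aemeasurable]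
  rw [lintegral_lintegral_swap (f := fun (x : Fin 5 → ℝ) (t : ℝ) =>
    χ (upH x t) * ENNReal.ofReal (1 / t ^ 6)) hG.aemeasurable]
  refine setLIntegral_congr_fun measurableSet_Ioi fun t ht => ?_
  have ht' : (0:ℝ) < t := ht
  have hm1 : Measurable fun x : Fin 5 → ℝ => χ (upH x t) :=
    hm0.comp (measurable_id.prodMk measurable_const)
  have hm2 : Measurable fun x : Fin 5 → ℝ => χ (upH (t • x) t) :=
    hm1.comp (measurable_const_smul t)
  show ∫⁻ u : Fin 5 → ℝ, χ (upH (t • u) t) * ENNReal.ofReal (1 / t) =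
    ∫⁻ x : Fin 5 → ℝ, χ (upH x t) * ENNReal.ofReal (1 / t ^ 6)
  rw [lintegral_mul_const _ hm1, lintegral_mul_const _ hm2,
    sub2 ht' (fun x => χ (upH x t)) hm1, mul_assoc, mul_comm (ENNReal.ofReal (t ^ 5)), mul_assoc,
    ← ENNReal.ofReal_mul (by positivity)]
  congr 2
  field_simp

theorem main : S_chart := by
  intro A hA
  have h1 : hypVol A = ∫⁻ y : Fin 6 → ℝ, A.indicator 1 (pt y) *
      ENNReal.ofReal (1 / Real.sqrt (1 + ∑ j, y j ^ 2)) := by
    unfold hypVol
    rw [Measure.map_apply measurable_pt hA, withDensity_apply _ (measurable_pt hA),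
      ← lintegral_indicator (measurable_pt hA)]
    refine lintegral_congr fun y => ?_
    by_cases hy : pt y ∈ A
    · rw [indicator_of_mem (show y ∈ pt ⁻¹' A from hy), indicator_of_mem hy, Pi.one_apply, one_mul]
    · rw [indicator_of_notMem (show y ∉ pt ⁻¹' A from hy), indicator_of_notMem hy, zero_mul]
  rw [h1, gen _ (measurable_one.indicator hA)]
  refine lintegral_congr fun x => ?_
  have hx : Measurable fun t : ℝ => upH x t :=
    measurable_upH.comp (measurable_const.prodMk measurable_id)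
  have h2 : {t : ℝ | 0 < t ∧ upH x t ∈ A} = (fun t => upH x t) ⁻¹' A ∩ Ioi 0 := by
    ext t
    simp only [mem_inter_iff, mem_preimage, mem_Ioi]
    exact and_comm
  rw [h2, ← Measure.restrict_restrict (hx hA), ← lintegral_indicator (hx hA)]
  refine lintegral_congr fun t => ?_
  by_cases hy : upH x t ∈ A
  · rw [indicator_of_mem (show t ∈ (fun t => upH x t) ⁻¹' A from hy), indicator_of_mem hy,
      Pi.one_apply, one_mul]
  · rw [indicator_of_notMem (show t ∉ (fun t => upH x t) ⁻¹' A from hy), indicator_of_notMem hy,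
      zero_mul]

end Pool.Agent.W308.RA
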